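import Mathlib
import Pool.Agent.Q151.Tri.Lower
import Pool.Agent.Q151.Tri.Upper

/-!
# Subsets of the grid without three translated triangles: the order of magnitude
-/

set_option autoImplicit false

namespace Pool.Agent.Results.MP_98d116_co.OrderOfMagnitude

/-- The grid `{1, ..., n} × {1, ..., n}` in `ℤ × ℤ`. -/
noncomputable def grid (n : ℕ) : Finset (ℤ × ℤ) := Finset.Icc (1 : ℤ) n ×ˢ Finset.Icc (1 : ℤ) n

/-- `A` contains three translated triangles: for some three-element set `X` and three pairwise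
distinct vectors `k 0, k 1, k 2`, all the translates `X + k i` are contained in `A`. -/
def ContainsThree (A : Finset (ℤ × ℤ)) : Prop :=
  ∃ X : Finset (ℤ × ℤ), X.card = 3 ∧ ∃ k : Fin 3 → ℤ × ℤ, Function.Injective k ∧
    ∀ i, ∀ x ∈ X, x + k i ∈ A

open Classical in
/-- `F(n)`: the largest size of a subset of the `n × n` grid that avoids three translated
triangles. -/
noncomputable def F (n : ℕ) : ℕ :=
  ((grid n).powerset.filter fun A => ¬ ContainsThree A).sup Finset.card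

lemma card_le_F {n : ℕ} {A : Finset (ℤ × ℤ)} (h : A ⊆ grid n) (h' : ¬ ContainsThree A) :
    A.card ≤ F n := by
  classical
  unfold F
  apply Finset.le_sup (f := Finset.card)
  rw [Finset.mem_filter, Finset.mem_powerset]
  exact ⟨h, h'⟩

lemma F_attained (n : ℕ) : ∃ A : Finset (ℤ × ℤ), A ⊆ grid n ∧ ¬ ContainsThree A ∧ A.card = F n := by
  classical
  have hne : ((grid n).powerset.filter fun A => ¬ ContainsThree A).Nonempty := by
    refine ⟨∅, ?_⟩
    rw [Finset.mem_filter, Finset.mem_powerset]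
    refine ⟨Finset.empty_subset _, ?_⟩
    rintro ⟨X, hX, k, -, h⟩
    have : X.Nonempty := by
      rw [← Finset.card_pos, hX]; norm_num
    obtain ⟨x, hx⟩ := this
    exact absurd (h 0 x hx) (Finset.notMem_empty _)
  obtain ⟨A, hA, hA'⟩ := Finset.exists_mem_eq_sup _ hne Finset.card
  rw [Finset.mem_filter, Finset.mem_powerset] at hA
  exact ⟨A, hA.1, hA.2, hA'.symm⟩

lemma F_upper (n : ℕ) : F n ^ 3 ≤ 32 * n ^ 4 + 3 * F n ^ 2 := by
  obtain ⟨A, hA, hA', hc⟩ := F_attained n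
  rw [← hc]
  exact Q151.Tri.upper n A hA hA'

lemma F_pos {n : ℕ} (hn : 1 ≤ n) : 1 ≤ F n := by
  have h1 : ({(1, 1)} : Finset (ℤ × ℤ)) ⊆ grid n := by
    intro x hx
    rw [Finset.mem_singleton] at hx
    subst hx
    simp only [grid, Finset.mem_product, Finset.mem_Icc]
    omega
  have h2 : ¬ ContainsThree ({(1, 1)} : Finset (ℤ × ℤ)) := by
    rintro ⟨X, hX, k, hk, h⟩
    have hne : X.Nonempty := by
      rw [← Finset.card_pos, hX]; norm_num
    obtain ⟨x, hx⟩ := hne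
    have h0 := h 0 x hx
    have h1 := h 1 x hx
    rw [Finset.mem_singleton] at h0 h1
    have h3 : k 0 = k 1 := add_left_cancel (h0.trans h1.symm)
    exact absurd (hk h3) (by decide)
  simpa using card_le_F h1 h2

lemma F_lower {n m : ℕ} (hm : 2 ≤ m) (h : 32 * m ^ 3 ≤ n ^ 2) : m * (m + 1) ≤ F n := by
  obtain ⟨p, hp, hmp, hpm⟩ := Nat.exists_prime_lt_and_le_two_mul m (by omega)
  have : Fact p.Prime := ⟨hp⟩
  have hp2 : p ≠ 2 := by omega
  obtain ⟨g, hg⟩ := FiniteField.exists_nonsquare (F := ZMod p) (by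
    rw [ZMod.ringChar_zmod_n]
    exact hp2)
  have h4 : 4 * p ^ 3 ≤ n ^ 2 := by
    calc 4 * p ^ 3 ≤ 4 * (2 * m) ^ 3 := by gcongr
      _ = 32 * m ^ 3 := by ring
      _ ≤ n ^ 2 := h
  have hc : ¬ ContainsThree (Q151.Tri.big p g n) := by
    rintro ⟨X, hX, k, hk, hXk⟩
    obtain ⟨x, y, z, hxy, hxz, hyz, rfl⟩ := Finset.card_eq_three.1 hX
    refine Q151.Tri.big_avoids p hp2 hg n ![x, y, z] k ?_ hk ?_
    · intro i j hij
      fin_cases i <;> fin_cases j <;> simp at hij ⊢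
      · exact hxy hij
      · exact hxz hij
      · exact hxy hij.symm
      · exact hyz hij
      · exact hxz hij.symm
      · exact hyz hij.symm
    · intro i j
      apply hXk
      fin_cases i <;> simp
  calc m * (m + 1) ≤ (p - 1) * p := by
        apply Nat.mul_le_mul <;> omega
    _ ≤ (Q151.Tri.big p g n).card := Q151.Tri.card_big p g n
    _ ≤ F n := card_le_F (Q151.Tri.big_subset p g h4) hc

/-- The order of magnitude of `F(n)` is `n ^ (4/3)`: for all `n ≥ 1`,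
`n ^ (4/3) / 50 ≤ F(n) ≤ 6 n ^ (4/3)`. -/
theorem result : ∀ n : ℕ, 1 ≤ n →
    (n : ℝ) ^ (4 / 3 : ℝ) / 50 ≤ (F n : ℝ) ∧ (F n : ℝ) ≤ 6 * (n : ℝ) ^ (4 / 3 : ℝ) := by
  intro n hn
  have hn' : (1 : ℝ) ≤ n := by exact_mod_cast hn
  have ht3 : ((n : ℝ) ^ (4 / 3 : ℝ)) ^ 3 = (n : ℝ) ^ 4 := by
    rw [← Real.rpow_natCast, ← Real.rpow_mul (by positivity), ← Real.rpow_natCast]
    norm_num
  have ht1 : 1 ≤ (n : ℝ) ^ (4 / 3 : ℝ) := Real.one_le_rpow hn' (by norm_num)
  set t : ℝ := (n : ℝ) ^ (4 / 3 : ℝ) with ht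
  constructor
  · have hF1 : (1 : ℝ) ≤ F n := by exact_mod_cast F_pos hn
    rcases lt_or_ge n 16 with h16 | h16
    · have h1 : (n : ℝ) ≤ 16 := by exact_mod_cast h16.le
      have h2 : t ^ 3 ≤ 50 ^ 3 := by
        rw [ht3]
        calc (n : ℝ) ^ 4 ≤ 16 ^ 4 := by gcongr
          _ ≤ 50 ^ 3 := by norm_num
      have h3 : t ≤ 50 := le_of_pow_le_pow_left₀ (by norm_num) (by norm_num) h2
      linarith
    · -- the largest `m` with `32 m ^ 3 ≤ n ^ 2`
      set m := Nat.findGreatest (fun m => 32 * m ^ 3 ≤ n ^ 2) n with hm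
      have hm1 : 32 * m ^ 3 ≤ n ^ 2 := by
        have := Nat.findGreatest_spec (P := fun m => 32 * m ^ 3 ≤ n ^ 2) (m := 0) (n := n)
          (Nat.zero_le _) (by simp)
        exact this
      have hm2 : 2 ≤ m := by
        apply Nat.le_findGreatest (by omega)
        nlinarith
      have hm3 : n ^ 2 < 32 * (m + 1) ^ 3 := by
        by_contra hcon
        push Not at hcon
        have h1 : m + 1 ≤ n := by
          by_contra h
          push Not at h
          have : n ≤ m := by omega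
          have h2 : n ^ 2 < 32 * (m + 1) ^ 3 := by
            calc n ^ 2 ≤ m ^ 2 := by gcongr
              _ < 32 * (m + 1) ^ 3 := by nlinarith [Nat.zero_le m, sq_nonneg m]
          omega
        have h2 : m + 1 ≤ m := Nat.le_findGreatest h1 hcon
        omega
      have hlow := F_lower hm2 hm1
      have hlow' : (m : ℝ) * (m + 1) ≤ F n := by exact_mod_cast hlow
      have hm2' : (2 : ℝ) ≤ m := by exact_mod_cast hm2
      have hm3' : (n : ℝ) ^ 2 ≤ 32 * ((m : ℝ) + 1) ^ 3 := by exact_mod_cast hm3.le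
      have h5 : t ^ 3 ≤ (50 * ((m : ℝ) * (m + 1))) ^ 3 := by
        rw [ht3]
        have e1 : (n : ℝ) ^ 4 ≤ (32 * ((m : ℝ) + 1) ^ 3) ^ 2 := by
          calc (n : ℝ) ^ 4 = ((n : ℝ) ^ 2) ^ 2 := by ring
            _ ≤ _ := by gcongr
        have e2 : ((m : ℝ) + 1) ≤ 3 / 2 * m := by linarith
        calc (n : ℝ) ^ 4 ≤ (32 * ((m : ℝ) + 1) ^ 3) ^ 2 := e1
          _ = 1024 * ((m : ℝ) + 1) ^ 3 * ((m : ℝ) + 1) ^ 3 := by ring
          _ ≤ 1024 * (3 / 2 * (m : ℝ)) ^ 3 * ((m : ℝ) + 1) ^ 3 := by gcongr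
          _ = 3456 * ((m : ℝ) ^ 3 * ((m : ℝ) + 1) ^ 3) := by ring
          _ ≤ 125000 * ((m : ℝ) ^ 3 * ((m : ℝ) + 1) ^ 3) := by
              have : 0 ≤ (m : ℝ) ^ 3 * ((m : ℝ) + 1) ^ 3 := by positivity
              nlinarith
          _ = (50 * ((m : ℝ) * (m + 1))) ^ 3 := by ring
      have h6 : t ≤ 50 * ((m : ℝ) * (m + 1)) :=
        le_of_pow_le_pow_left₀ (by norm_num) (by positivity) h5
      linarith
  · have hup : ((F n : ℝ)) ^ 3 ≤ 32 * (n : ℝ) ^ 4 + 3 * (F n : ℝ) ^ 2 := by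
      exact_mod_cast F_upper n
    rw [← ht3] at hup
    by_contra hcon
    push Not at hcon
    have h1 : (3 : ℝ) * t ≤ F n - 3 := by nlinarith
    have h2 : (F n : ℝ) ^ 2 * (F n - 3) ≤ 32 * t ^ 3 := by nlinarith
    have h3 : (6 * t) ^ 2 * (3 * t) ≤ (F n : ℝ) ^ 2 * (F n - 3) := by
      have : 0 ≤ t := by linarith
      gcongr
    have h4 : 0 < t ^ 3 := by positivity
    nlinarith

end Pool.Agent.Results.MP_98d116_co.OrderOfMagnitude
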